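import Pool.Agent.H13.SSep.Core

set_option autoImplicit false

namespace Pool.Agent.Results.MP_67c6ba_gt.RealNotSSeparable

/-- Every closed subgroup of the topological group `H` is separable. -/
def ClosedSubgroupsSeparable (H : Type) [AddGroup H] [TopologicalSpace H] : Prop :=
  ∀ K : AddSubgroup H, IsClosed (K : Set H) → TopologicalSpace.SeparableSpace K

/-- `G` is strongly separable (S-separable): for every Hausdorff topological group `H` all of whose
closed subgroups are separable, every closed subgroup of `G × H` is separable. -/
def SSeparable (G : Type) [AddGroup G] [TopologicalSpace G] : Prop :=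
  ∀ (H : Type) [AddGroup H] [TopologicalSpace H] [IsTopologicalAddGroup H] [T2Space H],
    ClosedSubgroupsSeparable H →
      ∀ C : AddSubgroup (G × H), IsClosed (C : Set (G × H)) → TopologicalSpace.SeparableSpace C

/-- The real line is not S-separable (Q1); hence there is a separable metrizable topological group
which is not S-separable (Q2). -/
theorem result :
    ¬ SSeparable ℝ ∧
    ∃ (G : Type) (_ : AddGroup G) (_ : TopologicalSpace G) (_ : IsTopologicalAddGroup G),
      TopologicalSpace.SeparableSpace G ∧ TopologicalSpace.MetrizableSpace G ∧ ¬ SSeparable G := by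
  have h : ¬ SSeparable ℝ := by
    intro hs
    obtain ⟨H, i1, i2, i3, i4, hH, C, hC, hCn⟩ := Pool.Agent.H13.SSep.core
    exact hCn (hs H hH C hC)
  exact ⟨h, ℝ, inferInstance, inferInstance, inferInstance, inferInstance, inferInstance, h⟩

end Pool.Agent.Results.MP_67c6ba_gt.RealNotSSeparable
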